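import Pool.Agent.W787.QC.Defs

/-!
# Project QC, step FA: derivatives and bounds of Fourier integrals
-/

open MeasureTheory Set Metric Filter Topology Real
open scoped ContDiff FourierTransform
open Pool.Agent.W787.QC

noncomputable section

namespace Pool.Agent.W212.QC

/-- The bilinear form. -/
def L : E →L[ℝ] E →L[ℝ] ℝ := -innerSL ℝ

/-- The complex Fourier integral. -/
def F {G : Type*} [NormedAddCommGroup G] [NormedSpace ℂ G] (h : E → G) : E → G :=
  VectorFourier.fourierIntegral 𝐞 volume L.toLinearMap₁₂ h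

lemma L_apply (v w : E) : L v w = - inner ℝ v w := rfl

lemma F_eq {G : Type*} [NormedAddCommGroup G] [NormedSpace ℂ G] (h : E → G) (x : E) :
    F h x = ∫ ξ, Complex.exp (2 * π * Complex.I * ((inner ℝ ξ x : ℝ) : ℂ)) • h ξ := by
  unfold F VectorFourier.fourierIntegral
  congr 1
  ext ξ
  rw [Circle.smul_def, Real.fourierChar_apply]
  have : (L.toLinearMap₁₂ ξ) x = - inner ℝ ξ x := L_apply ξ x
  rw [this]
  congr 2
  push_cast
  ring

lemma FI_eq (h : E → ℂ) (x : E) : FI h x = (F h x).re := by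
  rw [F_eq]
  unfold FI
  congr 2
  ext ξ
  rw [smul_eq_mul, mul_comm]

lemma FI_eq' (h : E → ℂ) : FI h = fun x => Complex.reCLM (F h x) := by
  ext x
  rw [FI_eq]
  rfl

lemma mom_int {h : E → ℂ} (hh : Mom h) : Integrable h := by
  have h0 := hh.2 0
  simp only [pow_zero, one_mul] at h0
  exact (integrable_norm_iff hh.1.aestronglyMeasurable).1 h0

lemma contDiff_F {h : E → ℂ} (hh : Mom h) : ContDiff ℝ ∞ (F h) := by
  have := VectorFourier.contDiff_fourierIntegral (μ := (volume : Measure E)) L (f := h)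
    (N := ⊤) (fun n _ => hh.2 n)
  exact this

lemma norm_F_le {G : Type*} [NormedAddCommGroup G] [NormedSpace ℂ G] (h : E → G) (x : E) :
    ‖F h x‖ ≤ ∫ ξ, ‖h ξ‖ :=
  VectorFourier.norm_fourierIntegral_le_integral_norm 𝐞 volume L.toLinearMap₁₂ h x

lemma norm_L_apply (v : E) : ‖L v‖ = ‖v‖ := by
  have : L v = - innerSL ℝ v := rfl
  rw [this, norm_neg]
  exact innerSL_apply_norm ℝ v

lemma fderiv_F {h : E → ℂ} (hh : Mom h) (x : E) :
    ‖fderiv ℝ (F h) x‖ ≤ ∫ ξ, 2 * π * ‖ξ‖ * ‖h ξ‖ := by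
  have h1 : Integrable (fun v => ‖v‖ * ‖h v‖) := by simpa using hh.2 1
  have := VectorFourier.fderiv_fourierIntegral (μ := (volume : Measure E)) L (f := h)
    (mom_int hh) h1
  have e : fderiv ℝ (F h) x = F (VectorFourier.fourierSMulRight L h) x := congrFun this x
  rw [e]
  refine (norm_F_le _ x).trans (le_of_eq ?_)
  congr 1
  ext ξ
  rw [VectorFourier.norm_fourierSMulRight, norm_L_apply]

lemma iter_F {h : E → ℂ} (hh : Mom h) (x : E) (m : Fin 4 → E) :
    iteratedFDeriv ℝ 4 (F h) x m =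
      F (fun ξ => (-(2 * π * Complex.I)) ^ 4 • (∏ i, L ξ (m i)) • h ξ) x := by
  have h1 := VectorFourier.iteratedFDeriv_fourierIntegral (μ := (volume : Measure E)) L (f := h)
    (N := ⊤) (fun n _ => hh.2 n) hh.1.aestronglyMeasurable (n := 4) (by exact_mod_cast le_top)
  have e : iteratedFDeriv ℝ 4 (F h) x =
      F (fun v ↦ VectorFourier.fourierPowSMulRight L h v 4) x := congrFun h1 x
  rw [e]
  unfold F
  rw [Real.fourierIntegral_continuousMultilinearMap_apply']
  · simp only [VectorFourier.fourierPowSMulRight_apply]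
  · exact VectorFourier.integrable_fourierPowSMulRight L (hh.2 4) hh.1.aestronglyMeasurable

lemma iter_FI {h : E → ℂ} (hh : Mom h) (x : E) (m : Fin 4 → E) :
    iteratedFDeriv ℝ 4 (FI h) x m =
      (F (fun ξ => (-(2 * π * Complex.I)) ^ 4 • (∏ i, L ξ (m i)) • h ξ) x).re := by
  have e : FI h = Complex.reCLM ∘ F h := FI_eq' h
  rw [e, ContinuousLinearMap.iteratedFDeriv_comp_left (n := ∞) Complex.reCLM
    (contDiff_F hh).contDiffAt (i := 4) (WithTop.coe_le_coe.2 (le_top : ((4 : ℕ) : ℕ∞) ≤ ⊤))]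
  rw [ContinuousLinearMap.compContinuousMultilinearMap_coe, Function.comp_apply, iter_F hh]
  rfl

/-- The pointwise factor. -/
def w (ξ : E) (i j : Fin 4) : ℝ := (2 * π) ^ 4 * (ξ i ^ 2 * ξ j ^ 2)

lemma factor (h : E → ℂ) (ξ : E) (i j : Fin 4) :
    (-(2 * π * Complex.I)) ^ 4 • (∏ a, L ξ ((![(EuclideanSpace.single i (1 : ℝ) : E),
      EuclideanSpace.single i (1 : ℝ), EuclideanSpace.single j (1 : ℝ),
      EuclideanSpace.single j (1 : ℝ)] : Fin 4 → E) a)) • h ξ = ((w ξ i j : ℝ) : ℂ) * h ξ := by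
  have h1 : ∀ k : Fin 4, L ξ (EuclideanSpace.single k (1 : ℝ)) = - ξ k := by
    intro k
    rw [L_apply, EuclideanSpace.inner_single_right]
    simp
  simp only [Fin.prod_univ_four, Matrix.cons_val_zero, Matrix.cons_val_one, Matrix.cons_val, h1]
  unfold w
  have h2 : (-(2 * (π : ℂ) * Complex.I)) ^ 4 = (2 * π) ^ 4 := by
    have : Complex.I ^ 4 = 1 := Complex.I_pow_four
    calc (-(2 * (π : ℂ) * Complex.I)) ^ 4 = (2 * π) ^ 4 * Complex.I ^ 4 := by ring
      _ = _ := by rw [this, mul_one]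
  rw [h2]
  simp only [smul_eq_mul, Complex.real_smul]
  push_cast
  ring

lemma w_sum (ξ : E) : ∑ i, ∑ j, w ξ i j = (2 * π * ‖ξ‖) ^ 4 := by
  have h1 : ‖ξ‖ ^ 2 = ∑ i, ξ i ^ 2 := by
    rw [EuclideanSpace.norm_sq_eq]
    simp
  have h2 : (2 * π * ‖ξ‖) ^ 4 = (2 * π) ^ 4 * (‖ξ‖ ^ 2 * ‖ξ‖ ^ 2) := by ring
  rw [h2, h1, Finset.sum_mul_sum, Finset.mul_sum]
  apply Finset.sum_congr rfl
  intro i _
  rw [Finset.mul_sum]
  rfl

lemma w_le (ξ : E) (i j : Fin 4) : |w ξ i j| ≤ (2 * π) ^ 4 * ‖ξ‖ ^ 4 := by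
  have h1 : ∀ k, ξ k ^ 2 ≤ ‖ξ‖ ^ 2 := by
    intro k
    have := EuclideanSpace.norm_sq_eq ξ
    rw [this]
    have h3 := Finset.single_le_sum (f := fun i => ‖ξ i‖ ^ 2) (fun i _ => sq_nonneg _)
      (Finset.mem_univ k)
    simpa using h3
  have h0 : 0 ≤ w ξ i j := by unfold w; positivity
  rw [abs_of_nonneg h0]
  unfold w
  have h4 : ξ i ^ 2 * ξ j ^ 2 ≤ ‖ξ‖ ^ 4 := by
    calc ξ i ^ 2 * ξ j ^ 2 ≤ ‖ξ‖ ^ 2 * ‖ξ‖ ^ 2 :=
          mul_le_mul (h1 i) (h1 j) (sq_nonneg _) (sq_nonneg _)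
      _ = ‖ξ‖ ^ 4 := by ring
  exact mul_le_mul_of_nonneg_left h4 (by positivity)

lemma w_cont (i j : Fin 4) : Continuous (fun ξ : E => w ξ i j) := by
  unfold w
  fun_prop

lemma int_w {h : E → ℂ} (hh : Mom h) (x : E) (i j : Fin 4) :
    Integrable (fun ξ => Complex.exp (2 * π * Complex.I * ((inner ℝ ξ x : ℝ) : ℂ)) •
      (((w ξ i j : ℝ) : ℂ) * h ξ)) := by
  have h4 : Integrable (fun ξ : E => (2 * π) ^ 4 * (‖ξ‖ ^ 4 * ‖h ξ‖)) :=
    (hh.2 4).const_mul _
  refine h4.mono' ?_ ?_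
  · apply Continuous.aestronglyMeasurable
    have := hh.1
    have hw := w_cont i j
    fun_prop
  · filter_upwards with ξ
    rw [norm_smul, norm_mul]
    have h1 : ‖Complex.exp (2 * π * Complex.I * ((inner ℝ ξ x : ℝ) : ℂ))‖ = 1 := by
      rw [Complex.norm_exp]
      simp
    rw [h1, one_mul, Complex.norm_real, ← mul_assoc]
    exact mul_le_mul_of_nonneg_right (w_le ξ i j) (norm_nonneg _)

/-- Derivatives and bounds of Fourier integrals. -/
theorem fa : S_FA := by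
  intro h hh
  refine ⟨?_, ?_, ?_, ?_⟩
  · rw [FI_eq']
    exact Complex.reCLM.contDiff.comp (contDiff_F hh)
  · intro x
    unfold bil
    simp only [iter_FI hh, factor]
    rw [FI_eq]
    simp only [F_eq]
    rw [← Complex.reCLM_apply]
    simp only [← Complex.reCLM_apply, ← map_sum]
    congr 1
    simp only [← integral_finsetSum _ (fun j _ => int_w hh x _ j)]
    rw [← integral_finsetSum _ (fun i _ => integrable_finsetSum _ (fun j _ => int_w hh x i j))]
    congr 1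
    ext ξ
    simp only [← Finset.smul_sum, ← Finset.sum_mul]
    rw [← w_sum]
    push_cast
    rfl
  · intro x
    rw [FI_eq]
    exact (Complex.abs_re_le_norm _).trans (norm_F_le _ _)
  · intro x
    rw [FI_eq']
    have hd : DifferentiableAt ℝ (F h) x := (contDiff_F hh).contDiffAt.differentiableAt (by simp)
    have : fderiv ℝ (fun x => Complex.reCLM (F h x)) x = Complex.reCLM.comp (fderiv ℝ (F h) x) :=
      (Complex.reCLM.hasFDerivAt.comp x hd.hasFDerivAt).fderiv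
    rw [this]
    refine (ContinuousLinearMap.opNorm_comp_le _ _).trans ?_
    rw [Complex.reCLM_norm, one_mul]
    exact fderiv_F hh x

end Pool.Agent.W212.QC
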